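import Pool.Agent.H28.MCL.Targets

/-!
`MP_c59857_nt`, many clusters: row COB (any number of clusters).
-/

set_option autoImplicit false

open Finset Filter Topology

namespace Pool.Agent.H40.MCL

open Pool.Agent.H28.MCL

theorem cob (hR : T_BBR) (hD : T_DTB) (hG : T_GEN) : T_COB := by
  intro k m δ hδ hm
  have hm0 : (0 : ℝ) < m := by exact_mod_cast hm
  have hθ : (0 : ℝ) < 1 / (8 * m) := by positivity
  obtain ⟨κ, hκ, hκ1, hB⟩ := hR k (δ * (1 / (8 * m)) / 24) (by positivity)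
  have h1 : (8 : ℝ) * m * (1 / (8 * m)) ≤ 1 := by
    rw [mul_one_div_cancel (by positivity)]
  have hV0 : 0 ≤ 1 - κ / 4 := by linarith
  have hs0 : 0 ≤ Real.sqrt (1 - κ / 4) := Real.sqrt_nonneg _
  have hs1 : Real.sqrt (1 - κ / 4) < 1 := by
    rw [Real.sqrt_lt' one_pos]
    linarith
  refine ⟨(1 + Real.sqrt (1 - κ / 4)) / 2, by linarith, by linarith, ?_⟩
  exact hG k m 2 δ (1 / (8 * m)) κ (1 - κ / 4) _ hm le_rfl hδ hθ hκ hκ1 hV0 (by linarith)
    (hB m 2 hm le_rfl) (hD m κ _ hm hκ hκ1 hθ h1)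

end Pool.Agent.H40.MCL
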