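import Pool.Agent.H28.MCL.Targets

/-!
`MP_c59857_nt`, many clusters: row PRA (a product of many factors).
-/

set_option autoImplicit false

open Finset Filter Topology

namespace Pool.Agent.H40.MCL

open Pool.Agent.H28.MCL

theorem pow_one_add_le {m : ℕ} {ζ : ℝ} (hζ : 0 ≤ ζ) (hm : (m : ℝ) * ζ ≤ 1 / 2) :
    (1 + ζ) ^ m ≤ 2 := by
  have h1 : (1 + ζ) ^ m ≤ Real.exp ζ ^ m := by
    apply pow_le_pow_left₀ (by linarith)
    linarith [Real.add_one_le_exp ζ]
  have h2 : Real.exp ζ ^ m = Real.exp (m * ζ) := by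
    rw [← Real.exp_nat_mul]
  have h3 : Real.exp (m * ζ) ≤ Real.exp (1 / 2) := Real.exp_le_exp.2 hm
  have h4 : Real.exp (1 / 2) ^ 2 = Real.exp 1 := by
    rw [← Real.exp_nat_mul]
    norm_num
  have h5 : Real.exp (1 / 2) ≤ 2 := by
    by_contra hcon
    push Not at hcon
    have h6 := Real.exp_one_lt_d9
    nlinarith
  linarith

theorem pra : T_PRA := by
  classical
  intro m κ ζ v hm hκ hκ1 hζ hζκ hmζ hv
  have hm0 : (0 : ℝ) < m := by exact_mod_cast hm
  have hpow := pow_one_add_le hζ hmζ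
  have hs0 : 0 ≤ Real.sqrt (1 - κ / 4) := Real.sqrt_nonneg _
  have hs1 : Real.sqrt (1 - κ / 4) ≤ 1 := by
    rw [Real.sqrt_le_one]
    linarith
  have hsq : Real.sqrt (1 - κ / 4) ^ 2 = 1 - κ / 4 := Real.sq_sqrt (by linarith)
  have hx0 : ∀ l, 0 ≤ 1 - κ * (1 - v l) + ζ := by
    intro l
    have := (hv l).1
    nlinarith
  by_cases hS : 1 / 4 < 1 / (m : ℝ) * ∑ l, v l
  · have h1 : ∏ l, (1 - κ * (1 - v l) + ζ) ≤ ∏ _l : Fin m, (1 + ζ) := by
      refine Finset.prod_le_prod (fun l _ => hx0 l) fun l _ => ?_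
      have := (hv l).2
      nlinarith
    rw [Finset.prod_const, Finset.card_univ, Fintype.card_fin] at h1
    have h2 : 0 ≤ 2 * Real.sqrt (1 - κ / 4) ^ m := by positivity
    linarith
  · push Not at hS
    have hsum : ∑ l, v l ≤ m / 4 := by
      have h1 : (m : ℝ) * (1 / (m : ℝ) * ∑ l, v l) ≤ m * (1 / 4) :=
        mul_le_mul_of_nonneg_left hS hm0.le
      rw [← mul_assoc, mul_one_div_cancel hm0.ne', one_mul] at h1
      linarith
    set G : Finset (Fin m) := Finset.univ.filter fun l => v l ≤ 1 / 2 with hG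
    have hcard : (m : ℝ) - G.card ≤ 2 * ∑ l, v l := by
      have h1 : (m : ℝ) - G.card = ((Finset.univ.filter fun l => ¬ v l ≤ 1 / 2).card : ℝ) := by
        have h2 := Finset.card_filter_add_card_filter_not (s := (Finset.univ : Finset (Fin m)))
          (fun l => v l ≤ 1 / 2)
        rw [Finset.card_univ, Fintype.card_fin] at h2
        have h3 : ((G.card + (Finset.univ.filter fun l => ¬ v l ≤ 1 / 2).card : ℕ) : ℝ) = m := by
          exact_mod_cast h2
        push_cast at h3
        linarith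
      rw [h1, Finset.mul_sum]
      calc ((Finset.univ.filter fun l => ¬ v l ≤ 1 / 2).card : ℝ)
          = ∑ l ∈ Finset.univ.filter fun l => ¬ v l ≤ 1 / 2, (1 : ℝ) := by simp
        _ ≤ ∑ l ∈ Finset.univ.filter fun l => ¬ v l ≤ 1 / 2, 2 * v l := by
            refine Finset.sum_le_sum fun l hl => ?_
            have := (Finset.mem_filter.1 hl).2
            push Not at this
            linarith
        _ ≤ ∑ l, 2 * v l := by
            refine Finset.sum_le_sum_of_subset_of_nonneg (Finset.filter_subset _ _) fun l _ _ => ?_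
            linarith [(hv l).1]
    have h2G : m ≤ 2 * G.card := by
      have : (m : ℝ) ≤ 2 * G.card := by linarith
      exact_mod_cast this
    have h1 : ∏ l, (1 - κ * (1 - v l) + ζ) ≤
        ∏ l, ((if v l ≤ 1 / 2 then (1 - κ / 4) else 1) * (1 + ζ)) := by
      refine Finset.prod_le_prod (fun l _ => hx0 l) fun l _ => ?_
      split_ifs with h
      · have h3 : 1 - κ * (1 - v l) + ζ ≤ 1 - κ / 4 := by nlinarith
        have h4 : 0 ≤ (1 - κ / 4) * ζ := mul_nonneg (by linarith) hζ
        linarith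
      · have := (hv l).2
        nlinarith
    have h5 : ∏ l : Fin m, ((if v l ≤ 1 / 2 then (1 - κ / 4) else 1) * (1 + ζ)) =
        (1 - κ / 4) ^ G.card * (1 + ζ) ^ m := by
      rw [Finset.prod_mul_distrib, Finset.prod_const, Finset.card_univ, Fintype.card_fin,
        Finset.prod_ite, Finset.prod_const, Finset.prod_const_one, mul_one]
    have h6 : (1 - κ / 4) ^ G.card ≤ Real.sqrt (1 - κ / 4) ^ m := by
      rw [← hsq, ← pow_mul, hsq]
      exact pow_le_pow_of_le_one hs0 hs1 h2G
    have h7 : 0 ≤ 8 * (1 / (m : ℝ) * ∑ l, v l) := by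
      have : 0 ≤ ∑ l, v l := Finset.sum_nonneg fun l _ => (hv l).1
      positivity
    rw [h5] at h1
    have h8 : (1 - κ / 4) ^ G.card * (1 + ζ) ^ m ≤ Real.sqrt (1 - κ / 4) ^ m * 2 :=
      mul_le_mul h6 hpow (by positivity) (by positivity)
    linarith

end Pool.Agent.H40.MCL
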